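import Mathlib

set_option autoImplicit false

namespace Pool.Agent.Results.MP_601622_gt.Main

open Set Topology Filter Matrix Finset

section
variable {G : Type} [AddCommGroup G] [Fintype G] [DecidableEq G]

noncomputable def k (η : ℝ) (r : G) : Matrix G G ℝ := fun x y =>
  (if x = y then 1 - η else 0) + (if x = y + r then η / 2 else 0) + if y = x + r then η / 2 else 0

omit [Fintype G] in
theorem ks (η : ℝ) (r x y : G) : k η r x y = k η r y x := by
  simp only [k, eq_comm (a := x) (b := y)]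
  ring

omit [Fintype G] in
theorem kh (η : ℝ) (r : G) : (k η r).IsHermitian := Matrix.ext fun x y => ks η r y x

theorem k1 (η : ℝ) (r x : G) : ∑ y, k η r x y = 1 := by
  simp [k, sum_add_distrib, ← sub_eq_iff_eq_add (a := x)]
  ring

theorem kq (η : ℝ) (r : G) (f : G → ℝ) :
    star f ⬝ᵥ (k η r *ᵥ f) = ∑ x, f x ^ 2 - η / 2 * ∑ x, (f (x + r) - f x) ^ 2 := by
  have a := Equiv.sum_comp (Equiv.addRight r) fun x => f x ^ 2
  have b := Equiv.sum_comp (Equiv.addRight r) fun x => f x * f (x - r)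
  have : ∀ x, (k η r *ᵥ f) x = (1 - η) * f x + η / 2 * f (x - r) + η / 2 * f (x + r) := fun x => by
    simp [k, mulVec, dotProduct, add_mul, sum_add_distrib, ← sub_eq_iff_eq_add (a := x)]
  simp only [Equiv.coe_addRight, add_sub_cancel_right] at a b
  simp only [dotProduct, this, star_trivial, mul_add, sum_add_distrib, sub_sq, sum_sub_distrib, a,
    mul_left_comm (f _), ← mul_sum, ← b, mul_assoc, ← sq, mul_comm (f (_ + r))]
  ring

theorem p1 (s : G) : (k (1 / 2) s).PosSemidef := .of_dotProduct_mulVec_nonneg (kh _ _) fun f => by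
  have a := Equiv.sum_comp (Equiv.addRight s) fun x => f x ^ 2
  have : ∑ x, (f (x + s) - f x) ^ 2 ≤ ∑ x, (2 * f (x + s) ^ 2 + 2 * f x ^ 2) :=
    sum_le_sum fun x _ => by nlinarith [sq_nonneg (f (x + s) + f x)]
  simp only [Equiv.coe_addRight, sum_add_distrib, ← mul_sum] at a this
  rw [kq]
  linarith

theorem p2 (s : G) (r : ℕ) (h : 0 < r) :
    (k (1 / (2 * r ^ 2)) (r • s) - k (1 / 2) s).PosSemidef :=
  .of_dotProduct_mulVec_nonneg ((kh _ _).sub (kh _ _)) fun f => by
    have : ∑ x, (f (x + r • s) - f x) ^ 2 ≤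
        ∑ x, r * ∑ j ∈ range r, (f (x + j • s + s) - f (x + j • s)) ^ 2 := sum_le_sum fun x _ => by
      have := sum_range_sub (fun j => f (x + j • s)) r
      simp only [zero_smul, add_zero, succ_nsmul, ← add_assoc] at this
      simpa [this] using sq_sum_le_card_mul_sum_sq (s := range r)
        (f := fun j => f (x + j • s + s) - f (x + j • s))
    have e : ∀ j : ℕ, ∑ x, (f (x + j • s + s) - f (x + j • s)) ^ 2 = ∑ x, (f (x + s) - f x) ^ 2 :=
      fun j => Equiv.sum_comp (Equiv.addRight (j • s)) fun x => (f (x + s) - f x) ^ 2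
    rw [← mul_sum, sum_comm] at this
    rw [sub_mulVec, dotProduct_sub, kq, kq]
    simp only [e, sum_const, card_range, nsmul_eq_mul] at this
    have := mul_le_mul_of_nonneg_left this (show (0 : ℝ) ≤ 1 / (4 * r ^ 2) by positivity)
    field_simp at this ⊢
    linarith

theorem pr {ι : Type} [Fintype ι] [DecidableEq ι] {a b : Matrix G G ℝ} (h : a.PosSemidef)
    (l : (b - a).PosSemidef) (s : Finset ι) :
    (of fun x y : ι → G => ∏ i ∈ s, a (x i) (y i)).PosSemidef ∧
      ((of fun x y : ι → G => ∏ i ∈ s, b (x i) (y i)) -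
        of fun x y : ι → G => ∏ i ∈ s, a (x i) (y i)).PosSemidef := by
  induction s using Finset.induction_on with
  | empty =>
    exact ⟨(congrArg PosSemidef (Matrix.ext fun x y => by simp [vecMulVec])).mp
      (posSemidef_vecMulVec_self_star (1 : (ι → G) → ℝ)), by simpa using PosSemidef.zero⟩
  | insert i s n ih =>
    exact ⟨(congrArg PosSemidef (Matrix.ext fun x y => by simp [prod_insert n])).mp
      ((h.submatrix fun x : ι → G => x i).hadamard ih.1),
      (congrArg PosSemidef (Matrix.ext fun x y => by simp [prod_insert n]; ring)).mp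
      ((((h.add l).submatrix fun x : ι → G => x i).hadamard ih.2).add
        ((l.submatrix fun x : ι → G => x i).hadamard ih.1))⟩

theorem poin {H : Type} [NormedAddCommGroup H] [InnerProductSpace ℝ H] {ι : Type} [Fintype ι]
    [DecidableEq ι] (s : G) (r : ℕ) (hr : 0 < r) (h0 : r • s ≠ 0) (h : (ι → G) → H) {p q : ℝ}
    (hq : ∀ x y, (∀ i, x i = y i ∨ x i = y i + s ∨ y i = x i + s) → ‖h x - h y‖ ^ 2 ≤ q)
    (hp : ∀ x y i, x i = y i + r • s ∨ y i = x i + r • s → p ≤ ‖h x - h y‖ ^ 2) :
    p * (1 - (1 - 1 / (2 * r ^ 2)) ^ Fintype.card ι) ≤ q := by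
  have e0 : (0 : ℝ) ≤ 1 / (2 * r ^ 2) := by positivity
  have e1 : (1 : ℝ) / (2 * r ^ 2) ≤ 1 := by
    rw [div_le_one (by positivity)]
    nlinarith [show (1 : ℝ) ≤ r by exact_mod_cast hr]
  have z := (((pr (p1 s) (p2 s r hr) (univ : Finset ι)).2.hadamard
    (posSemidef_gram ℝ h)).dotProduct_mulVec_nonneg 1)
  generalize (1 : ℝ) / (2 * r ^ 2) = η at *
  have u : ∀ η (r : G) (x : ι → G), ∑ y : ι → G, ∏ i, k η r (x i) (y i) = 1 := fun η r x => by
    rw [← Fintype.prod_sum fun i => k η r (x i)]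
    simp [k1]
  have v : ∀ η (r : G), ∑ x : ι → G, ∑ y : ι → G, (∏ i, k η r (x i) (y i)) * ‖h x - h y‖ ^ 2 =
      2 * ∑ x, ‖h x‖ ^ 2 - 2 * ∑ x : ι → G, ∑ y : ι → G,
        (∏ i, k η r (x i) (y i)) * inner ℝ (h x) (h y) := fun η r => by
    simp only [norm_sub_sq_real, mul_add, mul_sub, sum_add_distrib, sum_sub_distrib,
      mul_left_comm _ (2 : ℝ), ← mul_sum]
    rw [sum_comm (f := fun x y : ι → G => _ * ‖h y‖ ^ 2)]
    have : ∀ y : ι → G, ∑ x : ι → G, ∏ i, k η r (x i) (y i) = 1 := fun y =>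
      (sum_congr rfl fun x _ => prod_congr rfl fun i _ => ks ..).trans (u η r y)
    simp only [← sum_mul, u, this, one_mul]
    ring
  have n : ∀ {η : ℝ} (r : G) (x y : ι → G), 0 ≤ η → η ≤ 1 → 0 ≤ ∏ i, k η r (x i) (y i) :=
    fun r x y a b => prod_nonneg fun i _ => by
      unfold k
      split_ifs <;> linarith
  have a : ∑ x : ι → G, ∑ y : ι → G, (∏ i, k (1 / 2) s (x i) (y i)) * ‖h x - h y‖ ^ 2 ≤
      ∑ x : ι → G, q := sum_le_sum fun x _ => by
    refine (sum_le_sum fun y _ => ?_).trans_eq (by rw [← sum_mul, u (1 / 2) s x, one_mul])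
    by_cases c : ∀ i, x i = y i ∨ x i = y i + s ∨ y i = x i + s
    · exact mul_le_mul_of_nonneg_left (hq x y c) (n _ _ _ (by norm_num) (by norm_num))
    · push Not at c
      obtain ⟨i, c⟩ := c
      rw [prod_eq_zero (mem_univ i) (by simp [k, c]), zero_mul, zero_mul]
  have b : ∑ x : ι → G, p * (1 - (1 - η) ^ Fintype.card ι) ≤ ∑ x : ι → G, ∑ y : ι → G,
      (∏ i, k η (r • s) (x i) (y i)) * ‖h x - h y‖ ^ 2 := sum_le_sum fun x _ => by
    have := u η (r • s) x
    rw [← add_sum_erase _ _ (mem_univ x)] at this ⊢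
    rw [show ∏ i, k η (r • s) (x i) (x i) = (1 - η) ^ Fintype.card ι by simp [k, h0]] at this
    rw [sub_eq_of_eq_add' this.symm, mul_sum]
    refine le_add_of_nonneg_of_le (by simp) (sum_le_sum fun y hy => ?_)
    by_cases c : ∃ i, x i = y i + r • s ∨ y i = x i + r • s
    · rw [mul_comm]
      exact mul_le_mul_of_nonneg_left (hp x y _ c.choose_spec) (n _ _ _ e0 e1)
    · push Not at c
      obtain ⟨i, d⟩ := Function.ne_iff.1 (ne_of_mem_erase hy)
      rw [prod_eq_zero (mem_univ i) (by simp [k, c, d.symm]), zero_mul, mul_zero]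
  rw [v] at a b
  simp only [dotProduct, mulVec, hadamard_apply, Matrix.sub_apply, of_apply, gram_apply, star_trivial,
    Pi.one_apply, mul_one, one_mul, sub_mul, sum_sub_distrib] at z
  have := b.trans (le_trans (by linarith) a)
  simpa [Fintype.card_pos] using this

end

def r (n : ℕ) : ℕ := n.unpair.1 + 1

abbrev X (n : ℕ) := Fin n.unpair.2.unpair.1 → ZMod (2 * r n + 1)

theorem ex (n : ℕ) : ∃ σ : X n → List Bool, Fintype.card (X n) ≤ 2 ^ n →
    Function.Injective σ ∧ ∀ x, (σ x).length = n := by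
  by_cases h : Fintype.card (X n) ≤ 2 ^ n
  · obtain ⟨e⟩ := Function.Embedding.nonempty_of_card_le (α := X n) (β := Fin n → Bool) (by simpa using h)
    exact ⟨fun x => List.ofFn (e x), fun _ =>
      ⟨List.ofFn_injective.comp e.injective, fun _ => List.length_ofFn⟩⟩
  · exact ⟨default, fun k => (h k).elim⟩

noncomputable def δ : ℕ → ℝ
  | 0 => 1
  | n + 1 => δ n / (4 * (n + 2))

theorem δ0 (n : ℕ) : 0 < δ n ∧ δ n * (n + 1) ≤ (1 / 2) ^ n := by
  induction n with
  | zero => simp [δ]
  | succ n ih =>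
    have := ih.1
    refine ⟨by unfold δ; positivity, ?_⟩
    rw [δ, pow_succ, show δ n / (4 * (n + 2)) * ((n + 1 : ℕ) + 1) = δ n / 4 by
      push_cast; field_simp; ring]
    nlinarith [ih.2, n.cast_nonneg (α := ℝ)]

def t {m : ℕ} (u : ZMod m) : ℝ := u.valMinAbs.natAbs

def J := List Bool ⊕ Σ n : ℕ, Fin n.unpair.2.unpair.1 × ZMod (2 * r n + 1)

noncomputable def ψ : Option (List Bool) → J → ℝ
  | none, _ => 0
  | some w, .inl z => if w = z then δ w.length else 0
  | some w, .inr ⟨n, i, g⟩ =>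
    if w.length = n then δ n * t (Function.invFun (ex n).choose w i - g) else 0

noncomputable def ρ (x : Option (List Bool)) : ℝ := x.elim 0 fun w => δ w.length * (w.length + 1)

theorem bd (x : Option (List Bool)) (j : J) : ‖ψ x j‖ ≤ ρ x := by
  rcases x with _ | w
  · simp [ψ, ρ]
  have a := (δ0 w.length).1
  have b := w.length.cast_nonneg (α := ℝ)
  change _ ≤ _ * _
  rcases j with z | ⟨n, i, g⟩ <;> simp only [ψ] <;> split_ifs with h
  any_goals rw [norm_zero]; positivity
  · rw [Real.norm_of_nonneg a.le]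
    nlinarith
  · subst h
    rw [Real.norm_of_nonneg (mul_nonneg a.le (by unfold t; positivity))]
    refine mul_le_mul_of_nonneg_left ?_ a.le
    have := ZMod.natAbs_valMinAbs_le (Function.invFun (ex w.length).choose w i - g)
    have := w.length.unpair_left_le
    unfold t r at *
    norm_cast
    omega

instance : TopologicalSpace J := ⊥

instance : DiscreteTopology J := ⟨rfl⟩

noncomputable def Ψ (x : Option (List Bool)) : BoundedContinuousFunction J ℝ :=
  .ofNormedAddCommGroupDiscrete (ψ x) (ρ x) (bd x)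

theorem ap (x : Option (List Bool)) (j : J) : Ψ x j = ψ x j := rfl

theorem ρ0 (x : Option (List Bool)) : 0 ≤ ρ x := (norm_nonneg _).trans (bd x (.inl []))

theorem up (x : Option (List Bool)) : ‖Ψ x‖ ≤ ρ x :=
  (BoundedContinuousFunction.norm_le (ρ0 x)).2 (bd x)

theorem lo (b : Bool) {x y : Option (List Bool)} (h : x ≠ y) :
    ρ (x.map (b :: ·)) ≤ dist (Ψ x) (Ψ y) / 4 := by
  rcases x with _ | w
  · exact div_nonneg dist_nonneg zero_le_four
  have := (Ψ w).dist_coe_le_dist (g := Ψ y) (.inl w)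
  have e : dist (Ψ w (.inl w)) (Ψ y (.inl w)) = δ w.length := by
    rw [ap, ap]
    rcases y with _ | v
    · simp [ψ, (δ0 _).1.le]
    · simp [ψ, (δ0 _).1.le, show v ≠ w from fun k => h (by rw [k])]
  change δ (w.length + 1) * ((w.length + 1 : ℕ) + 1) ≤ _
  rw [δ, show δ w.length / (4 * (w.length + 2)) * ((w.length + 1 : ℕ) + 1) = δ w.length / 4 by
    push_cast; field_simp; ring]
  linarith

theorem ρ1 (b : Bool) (w : List Bool) : 0 < ρ ((some w).map (b :: ·)) :=
  mul_pos (δ0 _).1 (by positivity)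

def K := Option (List Bool)

noncomputable instance : MetricSpace K := .induced Ψ (fun x y h => by_contra fun n => by
  rcases x with _ | w
  · rcases y with _ | w
    · exact n rfl
    · simpa [h] using (ρ1 true w).trans_le (lo true (Ne.symm n))
  · simpa [h] using (ρ1 true w).trans_le (lo true n)) inferInstance

theorem result : ∃ (K : Type) (_ : MetricSpace K), CompactSpace K ∧ Nonempty K ∧
    ∃ F : Set (K → K), F.Finite ∧ (∀ f ∈ F, ∃ L < 1, LipschitzWith L f) ∧
      ⋃ f ∈ F, Set.range f = Set.univ ∧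
      ∀ (h : K → lp (fun _ : ℕ => ℝ) 2) (c C α : ℝ), 0 < c → 0 < C → 0 < α →
        ¬ ∀ x y, c * dist x y ^ α ≤ dist (h x) (h y) ∧ dist (h x) (h y) ≤ C * dist x y ^ α := by
  have d : ∀ x y : K, dist x y = dist (Ψ x) (Ψ y) := fun _ _ => rfl
  refine ⟨K, inferInstance, ⟨?_⟩, ⟨none⟩, insert (fun _ => some []) (range fun b =>
    Option.map (b :: ·)), (finite_range _).insert _, ?_, ?_, fun h c C α hc hC hα H => ?_⟩
  · have : Tendsto (β := K) some cofinite (𝓝 none) := Metric.tendsto_nhds.2 fun ε e => by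
      obtain ⟨N, hN⟩ := exists_pow_lt_of_lt_one e one_half_lt_one
      refine (List.finite_length_le Bool N).subset fun w hw => (not_lt.1 fun k => hw ?_ : w.length ≤ N)
      refine lt_of_le_of_lt ((dist_le_norm_add_norm _ _).trans (add_le_add (up _) (up _))) ?_
      exact ((add_zero _).trans_le (δ0 _).2).trans_lt
        ((pow_le_pow_of_le_one one_half_pos.le one_half_lt_one.le k.le).trans_lt hN)
    convert this.isCompact_insert_range_of_cofinite
    exact (Set.eq_univ_of_forall fun x => by rcases x with _ | w; exacts [.inl rfl, .inr ⟨w, rfl⟩]).symm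
  · rintro _ (rfl | ⟨b, rfl⟩)
    · exact ⟨0, one_pos, .const _⟩
    refine ⟨1 / 2, by norm_num, .of_dist_le_mul fun x y => ?_⟩
    rcases eq_or_ne x y with rfl | k
    · simp
    have := (dist_le_norm_add_norm _ _).trans
      (add_le_add ((up _).trans (lo b k)) ((up _).trans (lo b k.symm)))
    rw [d, d]
    push_cast
    linarith [dist_comm (Ψ x) (Ψ y)]
  · refine Set.eq_univ_of_forall fun x => mem_iUnion₂.2 ?_
    rcases x with _ | _ | ⟨b, w⟩
    exacts [⟨_, .inr ⟨true, rfl⟩, none, rfl⟩, ⟨_, .inl rfl, none, rfl⟩, ⟨_, .inr ⟨b, rfl⟩, some w, rfl⟩]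
  obtain ⟨R, hR⟩ := (((tendsto_rpow_atTop hα).comp (tendsto_natCast_atTop_atTop.comp
    (tendsto_add_atTop_nat 1))).eventually_gt_atTop (2 * C / c)).exists
  obtain ⟨N, hN⟩ := exists_pow_lt_of_lt_one one_half_pos
    (show (1 : ℝ) - 1 / (2 * (R + 1 : ℕ) ^ 2) < 1 from sub_lt_self _ (by positivity))
  obtain ⟨n, e1, e2, e3⟩ : ∃ n, r n = R + 1 ∧ n.unpair.2.unpair.1 = N ∧
      Fintype.card (X n) ≤ 2 ^ n := ⟨R.pair (N.pair ((2 * (R + 1) + 1) ^ N)), by simp [r], by simp, by
    simp only [X, r, Fintype.card_pi, ZMod.card, prod_const, card_univ, Fintype.card_fin,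
      Nat.unpair_pair]
    exact ((Nat.right_le_pair _ _).trans (Nat.right_le_pair _ _)).trans Nat.lt_two_pow_self.le⟩
  obtain ⟨s1, s2⟩ := (ex n).choose_spec e3
  have v : ∀ x i g, Ψ (some ((ex n).choose x)) (.inr ⟨n, i, g⟩) = δ n * t (x i - g) :=
    fun x i g => by
      simp only [ap, ψ, s2, if_true]
      exact congrArg (fun z : X n => δ n * t (z i - g)) (Function.leftInverse_invFun s1 x)
  have a := (δ0 n).1
  have t0 : ∀ a ≤ r n, t (a : ZMod (2 * r n + 1)) = a := fun a h => by
    simp [t, ZMod.valMinAbs_natCast_of_le_half (show a ≤ (2 * r n + 1) / 2 by omega)]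
  have t1 : ∀ u : ZMod (2 * r n + 1), t (u + 1) ≤ t u + 1 ∧ t u ≤ t (u + 1) + 1 := fun u => by
    have a := ZMod.natAbs_valMinAbs_add_le u 1
    have b := ZMod.natAbs_valMinAbs_add_le (u + 1) (-1)
    have c := ZMod.natAbs_valMinAbs_neg (1 : ZMod (2 * r n + 1))
    have := t0 1 (by simp [r])
    simp only [t, add_neg_cancel_right, Nat.cast_one] at *
    norm_cast at *
    omega
  have := poin (1 : ZMod (2 * r n + 1)) (r n) (by simp [r]) (fun k => by
    have := t0 _ le_rfl
    rw [nsmul_one] at k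
    rw [k] at this
    simp [t, r] at this
    linarith [n.unpair.1.cast_nonneg (α := ℝ)]) (fun x : X n => h (some ((ex n).choose x)))
    (p := (c * (δ n * r n) ^ α) ^ 2) (q := (C * δ n ^ α) ^ 2) (fun x y k => by
      rw [← dist_eq_norm]
      refine pow_le_pow_left₀ dist_nonneg ((H _ _).2.trans (mul_le_mul_of_nonneg_left
        (Real.rpow_le_rpow dist_nonneg ((BoundedContinuousFunction.dist_le a.le).2 ?_) hα.le)
        hC.le)) 2
      rintro (z | ⟨m, i, g⟩)
      · rw [ap, ap]
        simp only [ψ, s2]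
        split_ifs <;> simp [a.le, abs_of_pos a]
      rcases eq_or_ne n m with rfl | e
      · rw [v, v, Real.dist_eq, ← mul_sub, abs_mul, abs_of_pos a]
        refine mul_le_of_le_one_right a.le (abs_le.2 ?_)
        rcases k i with k | k | k <;> rw [k]
        · simp
        all_goals rw [add_sub_right_comm]
        exacts [⟨by linarith [t1 (y i - g)], by linarith [t1 (y i - g)]⟩,
          ⟨by linarith [t1 (x i - g)], by linarith [t1 (x i - g)]⟩]
      · rw [ap, ap]
        simp [ψ, s2, e, a.le]) fun x y i k => by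
      rw [← dist_eq_norm]
      refine pow_le_pow_left₀ (by positivity) (le_trans (mul_le_mul_of_nonneg_left
        (Real.rpow_le_rpow (by positivity) ?_ hα.le) hc.le) (H _ _).1) 2
      rcases k with k | k
      · refine le_trans ?_ (BoundedContinuousFunction.dist_coe_le_dist (.inr ⟨n, i, y i⟩))
        rw [v, v, k, nsmul_one, add_sub_cancel_left, t0 _ le_rfl]
        simp [t, abs_of_pos a]
      · refine le_trans ?_ (BoundedContinuousFunction.dist_coe_le_dist (.inr ⟨n, i, x i⟩))
        rw [v, v, k, nsmul_one, add_sub_cancel_left, t0 _ le_rfl]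
        simp [t, abs_of_pos a]
  rw [Fintype.card_fin, e1, e2, Real.mul_rpow a.le (by positivity)] at this
  change _ < ((R + 1 : ℕ) : ℝ) ^ α at hR
  rw [div_lt_iff₀ hc] at hR
  have b := Real.rpow_pos_of_pos a α
  generalize δ n ^ α = u at *
  generalize ((R + 1 : ℕ) : ℝ) ^ α = w at *
  have : 2 * (C * u) < c * (u * w) := by nlinarith
  nlinarith [mul_pos hC b]

end Pool.Agent.Results.MP_601622_gt.Main
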